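import Pool.Agent.H72.StabD
import Pool.Agent.H72.StabP
import Pool.Agent.H72.StabV

set_option autoImplicit false

namespace Pool.Agent.Results.MP_098da0_al.Stable

open Matrix Filter Topology H72.Stab

/-- Stability of `G` with respect to the metric groups `(U n, d n)`, `n ≥ 1`. -/
def IsStable {U : ℕ → Type} [∀ n, Group (U n)] (d : ∀ n, U n → U n → ℝ) (G : Type) [Group G] :
    Prop :=
  ∀ (n : ℕ → ℕ), (∀ k, 0 < n k) → ∀ φ : ∀ k, G → U (n k),
    (∀ a b, Tendsto (fun k => d (n k) (φ k a * φ k b) (φ k (a * b))) atTop (𝓝 0)) →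
    ∃ ψ : ∀ k, G →* U (n k), ∀ a, Tendsto (fun k => d (n k) (φ k a) (ψ k a)) atTop (𝓝 0)

/-- Normalized Hilbert-Schmidt distance on `U(n)`. -/
noncomputable def hs (n : ℕ) (A B : Matrix.unitaryGroup (Fin n) ℂ) : ℝ :=
  √(((A.1 - B.1)ᴴ * (A.1 - B.1)).trace.re / n)

/-- Normalized Hamming distance on `Sym(n)`. -/
noncomputable def ham (n : ℕ) (σ τ : Equiv.Perm (Fin n)) : ℝ :=
  ((Finset.univ.filter fun x => σ x ≠ τ x).card : ℝ) / n

/-- A subgroup with finitely many conjugates. -/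
def AlmostNormal {G : Type} [Group G] (K : Subgroup G) : Prop :=
  {L : Subgroup G | ∃ g : G, L = K.map (MulAut.conj g).toMonoidHom}.Finite

/-- The amalgamated free product. -/
abbrev Amalgam {H G₁ G₂ : Type} [Group H] [Group G₁] [Group G₂] (i₁ : H →* G₁) (i₂ : H →* G₂) :
    Type :=
  Monoid.Coprod G₁ G₂ ⧸ Subgroup.normalClosure (Set.range fun h : H =>
    (Monoid.Coprod.inl (i₁ h) * (Monoid.Coprod.inr (i₂ h))⁻¹ : Monoid.Coprod G₁ G₂))

lemma hs_eq (n : ℕ) (A B : Matrix.unitaryGroup (Fin n) ℂ) : hs n A B = √(fr (A.1 - B.1) / n) := by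
  rw [hs, ← fr_eq_trace]; simp

lemma sqrt_tendsto {a : ℕ → ℝ} (h0 : ∀ k, 0 ≤ a k) :
    Tendsto (fun k => √(a k)) atTop (𝓝 0) ↔ Tendsto a atTop (𝓝 0) := by
  constructor
  · intro h
    have := h.pow 2
    simpa [Real.sq_sqrt (h0 _)] using this
  · intro h
    simpa using h.sqrt

lemma hs_iff (G : Type) [Group G] : IsStable hs G ↔ SStable CU G := by
  have hq : ∀ {n : ℕ} (A : Matrix (Fin n) (Fin n) ℂ),
      A ∈ Matrix.unitaryGroup (Fin n) ℂ ↔ CU.Q A := fun A => Iff.rfl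
  have h0 : ∀ {n : ℕ} (A : Matrix (Fin n) (Fin n) ℂ), 0 ≤ fr A / n :=
    fun A => div_nonneg (fr_nonneg _) (Nat.cast_nonneg _)
  constructor
  · intro h n φ hn hφ hm
    obtain ⟨ψ, hψ⟩ := h n hn (fun k g => ⟨φ k g, (hq _).2 (hφ k g)⟩) (fun a b => by
      simp only [hs_eq]
      exact (sqrt_tendsto fun k => h0 _).2 (hm a b))
    refine ⟨fun k => (Matrix.unitaryGroup (Fin (n k)) ℂ).subtype.comp (ψ k),
      fun k g => (hq _).1 (ψ k g).2, fun a => ?_⟩
    have := hψ a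
    simp only [hs_eq] at this
    exact (sqrt_tendsto fun k => h0 _).1 this
  · intro h n hn φ hm
    obtain ⟨ψ, hQ, hψ⟩ := h n (fun k g => (φ k g).1) hn (fun k g => (hq _).1 (φ k g).2)
      (fun a b => by
        have := hm a b
        simp only [hs_eq] at this
        exact (sqrt_tendsto fun k => h0 _).1 this)
    refine ⟨fun k => (ψ k).codRestrict _ (fun g => (hq _).2 (hQ k g)), fun a => ?_⟩
    simp only [hs_eq]
    exact (sqrt_tendsto fun k => h0 _).2 (hψ a)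

lemma ham_eq (n : ℕ) (σ τ : Equiv.Perm (Fin n)) : fr (pm σ - pm τ) / n = 2 * ham n σ τ := by
  rw [fr_pm_sub, ham, mul_div_assoc]

lemma two_tendsto {a : ℕ → ℝ} :
    Tendsto (fun k => 2 * a k) atTop (𝓝 0) ↔ Tendsto a atTop (𝓝 0) := by
  constructor
  · intro h
    simpa using h.const_mul 2⁻¹
  · intro h
    simpa using h.const_mul 2

lemma ham_iff (G : Type) [Group G] : IsStable ham G ↔ SStable CP G := by
  constructor
  · intro h n φ hn hφ hm
    choose σ hσ using hφ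
    obtain ⟨ψ, hψ⟩ := h n hn σ (fun a b => by
      have := hm a b
      simp only [hσ, ← pm_mul_perm, ham_eq] at this
      exact two_tendsto.1 this)
    refine ⟨fun k => pmHom.comp (ψ k), fun k g => ⟨_, rfl⟩, fun a => ?_⟩
    refine (two_tendsto.2 (hψ a)).congr fun k => ?_
    rw [← ham_eq, hσ]; rfl
  · intro h n hn φ hm
    obtain ⟨ψ, hQ, hψ⟩ := h n (fun k g => pm (φ k g)) hn (fun k g => ⟨_, rfl⟩) (fun a b => by
      simp only [← pm_mul_perm, ham_eq]
      exact two_tendsto.2 (hm a b))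
    refine ⟨fun k => perm ⟨Fin (n k), ψ k, hQ k⟩, fun a => two_tendsto.1 ?_⟩
    refine (hψ a).congr fun k => ?_
    rw [← ham_eq, ← perm_spec ⟨Fin (n k), ψ k, hQ k⟩]

lemma amalgam {C : Cls} {H G₁ G₂ : Type} [Group H] [Group G₁] [Group G₂] [Finite H]
    [Countable G₁] [Countable G₂] {i₁ : H →* G₁} {i₂ : H →* G₂} {D : HData C H}
    (E₁ : GData D G₁ i₁) (E₂ : GData D G₂ i₂) (h₁ : SStable C G₁) (h₂ : SStable C G₂) :
    SStable C (Amalgam i₁ i₂) := by
  refine amalg_stable E₁ E₂ ((QuotientGroup.mk' _).comp Monoid.Coprod.inl)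
    ((QuotientGroup.mk' _).comp Monoid.Coprod.inr) (fun h => ?_) ?_ ?_ h₁ h₂
  · simp only [MonoidHom.comp_apply, QuotientGroup.mk'_apply]
    rw [← mul_inv_eq_one, ← QuotientGroup.mk_inv, ← QuotientGroup.mk_mul,
      QuotientGroup.eq_one_iff]
    exact Subgroup.subset_normalClosure ⟨h, rfl⟩
  · rw [eq_top_iff]
    rintro x -
    obtain ⟨y, rfl⟩ := QuotientGroup.mk_surjective x
    induction y using Monoid.Coprod.induction_on with
    | inl g => exact Subgroup.subset_closure (Or.inl ⟨g, rfl⟩)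
    | inr g => exact Subgroup.subset_closure (Or.inr ⟨g, rfl⟩)
    | mul a b ha hb => rw [QuotientGroup.mk_mul]; exact Subgroup.mul_mem _ ha hb
  · intro M _ ψ₁ ψ₂ hψ
    refine ⟨QuotientGroup.lift _ (Monoid.Coprod.lift ψ₁ ψ₂) ?_, fun g => rfl, fun g => rfl⟩
    refine Subgroup.normalClosure_le_normal ?_
    rintro _ ⟨h, rfl⟩
    simp only [SetLike.mem_coe, MonoidHom.mem_ker]
    rw [← map_inv, map_mul, Monoid.Coprod.lift_apply_inl, Monoid.Coprod.lift_apply_inr, hψ,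
      ← map_mul, mul_inv_cancel, map_one]

/-- Amalgams of stable groups over finite almost normal subgroups are stable, both in the
Hilbert-Schmidt metric and in the Hamming metric. -/
theorem result (H G₁ G₂ : Type) [Group H] [Group G₁] [Group G₂] [Finite H]
    [Countable G₁] [Countable G₂] (i₁ : H →* G₁) (i₂ : H →* G₂)
    (n₁ : AlmostNormal i₁.range) (n₂ : AlmostNormal i₂.range) :
    (IsStable hs G₁ → IsStable hs G₂ → IsStable hs (Amalgam i₁ i₂)) ∧
    (IsStable ham G₁ → IsStable ham G₂ → IsStable ham (Amalgam i₁ i₂)) := by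
  have := Fintype.ofFinite H
  have f₁ : Finite i₁.range := Finite.of_surjective _ i₁.rangeRestrict_surjective
  have f₂ : Finite i₂.range := Finite.of_surjective _ i₂.rangeRestrict_surjective
  obtain ⟨K₁, a₁, b₁, c₁⟩ := exists_finite_normal i₁.range n₁
  obtain ⟨K₂, a₂, b₂, c₂⟩ := exists_finite_normal i₂.range n₂
  have d₁ : ∀ h, i₁ h ∈ K₁ := fun h => c₁ ⟨h, rfl⟩
  have d₂ : ∀ h, i₂ h ∈ K₂ := fun h => c₂ ⟨h, rfl⟩
  simp only [hs_iff, ham_iff]
  constructor
  · obtain ⟨E₁⟩ := exists_GU K₁ i₁ d₁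
    obtain ⟨E₂⟩ := exists_GU K₂ i₂ d₂
    exact amalgam E₁ E₂
  · exact amalgam (GP K₁ i₁ d₁) (GP K₂ i₂ d₂)

end Pool.Agent.Results.MP_098da0_al.Stable
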